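import Pool.Agent.L7h61.CL.Stm

/-!
# Project TM (helper61), part B: the symmetric paths (helper73)
-/

set_option autoImplicit false

open Set Topology

noncomputable section

namespace Pool.Agent.L7h73.TM

open Pool.Agent.L7h61.CL Pool.Agent.Y489.GE

/-- the distance from `t` to the multiples of `2 L` -/
def tw (L t : ℝ) : ℝ := ‖(t : AddCircle (2 * L))‖

theorem tw_nonneg (L t : ℝ) : 0 ≤ tw L t := norm_nonneg _

theorem tw_lip (L s t : ℝ) : |tw L s - tw L t| ≤ |s - t| := by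
  unfold tw
  refine (abs_norm_sub_norm_le _ _).trans ?_
  rw [← AddCircle.coe_sub]
  exact QuotientAddGroup.norm_mk_le_norm

theorem tw_neg (L t : ℝ) : tw L (-t) = tw L t := by
  unfold tw
  rw [AddCircle.coe_neg, norm_neg]

theorem tw_per (L t : ℝ) : tw L (t + 2 * L) = tw L t := by
  unfold tw
  rw [AddCircle.coe_add_period]

theorem tw_of {L t : ℝ} (hL : 0 < L) (h0 : 0 ≤ t) (h1 : t ≤ L) : tw L t = t := by
  unfold tw
  rw [(AddCircle.norm_coe_eq_abs_iff (2 * L) (by positivity)).2, abs_of_nonneg h0]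
  rw [abs_of_nonneg h0, abs_of_pos (by linarith)]
  linarith

theorem tw_int {L : ℝ} (hL : 0 < L) (k : ℤ) : tw L (k * L) = 0 ∨ tw L (k * L) = L := by
  rcases Int.even_or_odd' k with ⟨m, rfl | rfl⟩
  · left
    unfold tw
    have h : (((2 * m : ℤ) : ℝ) * L : ℝ) = m • (2 * L) := by
      rw [zsmul_eq_mul]
      push_cast
      ring
    have h2 : ((((2 * m : ℤ) : ℝ) * L : ℝ) : AddCircle (2 * L)) = 0 := by
      rw [AddCircle.coe_eq_zero_iff]
      exact ⟨m, h.symm⟩
    rw [h2, norm_zero]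
  · right
    have h : (((2 * m + 1 : ℤ) : ℝ) * L : ℝ) = L + m • (2 * L) := by
      rw [zsmul_eq_mul]
      push_cast
      ring
    have h2 : ((m • (2 * L) : ℝ) : AddCircle (2 * L)) = 0 := by
      rw [AddCircle.coe_eq_zero_iff]
      exact ⟨m, rfl⟩
    have h3 : tw L (L + m • (2 * L)) = tw L L := by
      unfold tw
      rw [AddCircle.coe_add, h2, add_zero]
    rw [h, h3, tw_of hL hL.le le_rfl]

variable {X : Type} [MetricSpace X]

/-- the closed curve: `α` forth and `β` back -/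
def cc (L : ℝ) (α β : ℝ → X) (t : ℝ) : X := if Even ⌊t / L⌋ then α (tw L t) else β (tw L t)

variable {L : ℝ} {α β : ℝ → X} {x y : X}

theorem cc_int (hL : 0 < L) (hα : Trk α x y L) (hβ : Trk β x y L) (k : ℤ) :
    α (tw L (k * L)) = β (tw L (k * L)) := by
  rcases tw_int hL k with h | h
  · rw [h, hα.2.1 0 le_rfl, hβ.2.1 0 le_rfl]
  · rw [h, hα.2.2 L le_rfl, hβ.2.2 L le_rfl]

theorem cc_on (hL : 0 < L) (hα : Trk α x y L) (hβ : Trk β x y L) (k : ℤ) (t : ℝ)
    (h0 : k * L ≤ t) (h1 : t ≤ (k + 1) * L) :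
    cc L α β t = if Even k then α (tw L t) else β (tw L t) := by
  rcases h1.lt_or_eq with h | h
  · have hf : ⌊t / L⌋ = k := by
      rw [Int.floor_eq_iff, le_div_iff₀ hL, div_lt_iff₀ hL]
      exact ⟨h0, h⟩
    unfold cc
    rw [hf]
  · have h2 := cc_int hL hα hβ (k + 1)
    push_cast at h2
    rw [← h] at h2
    unfold cc
    split_ifs
    · rfl
    · exact h2
    · exact h2.symm
    · rfl

theorem cc_loc (hL : 0 < L) (hα : Trk α x y L) (hβ : Trk β x y L) (k : ℤ) (s t : ℝ)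
    (h0 : k * L ≤ s) (h1 : s ≤ t) (h2 : t ≤ (k + 1) * L) :
    dist (cc L α β s) (cc L α β t) ≤ t - s := by
  rw [cc_on hL hα hβ k s h0 (h1.trans h2), cc_on hL hα hβ k t (h0.trans h1) h2]
  have h3 : |tw L s - tw L t| ≤ t - s := by
    refine (tw_lip L s t).trans (le_of_eq ?_)
    rw [abs_sub_comm, abs_of_nonneg (by linarith)]
  split_ifs
  · exact (hα.1 _ _).trans h3
  · exact (hβ.1 _ _).trans h3

theorem cc_step (hL : 0 < L) (hα : Trk α x y L) (hβ : Trk β x y L) (s t : ℝ)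
    (h1 : s ≤ t) (h2 : t ≤ s + L) : dist (cc L α β s) (cc L α β t) ≤ t - s := by
  set k : ℤ := ⌊s / L⌋ with hk
  have h0 : k * L ≤ s := by
    rw [← le_div_iff₀ hL]
    exact Int.floor_le _
  have h3 : s < (k + 1) * L := by
    rw [← div_lt_iff₀ hL]
    exact Int.lt_floor_add_one _
  rcases le_total t ((k + 1) * L) with h | h
  · exact cc_loc hL hα hβ k s t h0 h1 h
  · have e1 := cc_loc hL hα hβ k s ((k + 1) * L) h0 h3.le le_rfl
    have e2 := cc_loc hL hα hβ (k + 1) ((k + 1) * L) t (by push_cast; exact le_rfl) h (by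
      push_cast
      nlinarith)
    calc dist (cc L α β s) (cc L α β t) ≤ dist (cc L α β s) (cc L α β ((k + 1) * L)) +
          dist (cc L α β ((k + 1) * L)) (cc L α β t) := dist_triangle _ _ _
      _ ≤ _ := by linarith

theorem cc_all (hL : 0 < L) (hα : Trk α x y L) (hβ : Trk β x y L) (n : ℕ) : ∀ s t : ℝ,
    s ≤ t → t ≤ s + n * L → dist (cc L α β s) (cc L α β t) ≤ t - s := by
  induction n with
  | zero =>
    intro s t h1 h2
    have : t = s := by
      push_cast at h2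
      linarith
    rw [this]
    simp
  | succ n ih =>
    intro s t h1 h2
    rcases le_total t (s + L) with h | h
    · exact cc_step hL hα hβ s t h1 h
    · have e1 := cc_step hL hα hβ s (s + L) (by linarith) le_rfl
      have e2 := ih (s + L) t h (by push_cast at h2; linarith)
      calc dist (cc L α β s) (cc L α β t) ≤ dist (cc L α β s) (cc L α β (s + L)) +
            dist (cc L α β (s + L)) (cc L α β t) := dist_triangle _ _ _
        _ ≤ _ := by linarith

theorem cc_Per (hL : 0 < L) (hα : Trk α x y L) (hβ : Trk β x y L) :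
    cc L α β ∈ Per X (2 * L) := by
  have key : ∀ s t : ℝ, s ≤ t → dist (cc L α β s) (cc L α β t) ≤ t - s := by
    intro s t h
    obtain ⟨n, hn⟩ := exists_nat_ge ((t - s) / L)
    rw [div_le_iff₀ hL] at hn
    exact cc_all hL hα hβ n s t h (by linarith)
  refine ⟨fun s t => ?_, fun t => ?_⟩
  · rcases le_total s t with h | h
    · rw [abs_sub_comm, abs_of_nonneg (by linarith)]
      exact key s t h
    · rw [dist_comm, abs_of_nonneg (by linarith)]
      exact key t s h
  · unfold cc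
    have h1 : (t + 2 * L) / L = t / L + 2 := by
      field_simp
    have h2 : ⌊(t + 2 * L) / L⌋ = ⌊t / L⌋ + 2 := by
      rw [h1]
      exact_mod_cast Int.floor_add_intCast (t / L) 2
    rw [h2, tw_per]
    have h3 : Even (⌊t / L⌋ + 2) ↔ Even ⌊t / L⌋ := by
      rw [Int.even_add]
      simp
    simp only [h3]

theorem cc_rev (hL : 0 < L) (hα : Trk α x y L) (hβ : Trk β x y L) :
    cc L β α = fun u => cc L α β (-u) := by
  funext t
  set k : ℤ := ⌊t / L⌋ with hk
  have h0 : k * L ≤ t := by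
    rw [← le_div_iff₀ hL]
    exact Int.floor_le _
  have h3 : t < (k + 1) * L := by
    rw [← div_lt_iff₀ hL]
    exact Int.lt_floor_add_one _
  rw [cc_on hL hα hβ (-(k + 1)) (-t) (by push_cast; linarith) (by push_cast; linarith), tw_neg,
    cc_on hL hβ hα k t h0 h3.le]
  have h4 : Even (-(k + 1)) ↔ ¬ Even k := by
    rw [even_neg, Int.even_add_one]
  by_cases h : Even k
  · rw [if_pos h, if_neg (by rw [h4]; exact fun h' => h' h)]
  · rw [if_neg h, if_pos (h4.2 h)]

theorem cc_low (hL : 0 < L) (hα : Trk α x y L) (hβ : Trk β x y L) {t : ℝ} (h0 : 0 ≤ t)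
    (h1 : t ≤ L) : cc L α β t = α t := by
  rw [cc_on hL hα hβ 0 t (by simpa using h0) (by simpa using h1), if_pos (by decide),
    tw_of hL h0 h1]

theorem cc_cont {Z : Type} [TopologicalSpace Z] {α β : Z → ℝ → X} (hα : Continuous α)
    (hβ : Continuous β) : Continuous fun z => cc L (α z) (β z) := by
  rw [continuous_pi_iff]
  intro t
  unfold cc
  split_ifs
  · exact (continuous_apply _).comp hα
  · exact (continuous_apply _).comp hβ

/-- the path with parameter `μ` in the contraction -/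
def K0 (D : (ℝ → X) → ℝ → ℝ → X) (L : ℝ) (α β : ℝ → X) (μ σ : ℝ) : X :=
  D (cc L α β) (sS μ σ) (L * tS μ σ)

theorem sS_cont : Continuous fun q : ℝ × ℝ => sS q.1 q.2 := by
  unfold sS
  exact c1_cont.comp (by fun_prop)

theorem tS_cont : Continuous fun q : ℝ × ℝ => tS q.1 q.2 := by
  unfold tS
  exact ((continuous_const.sub (continuous_const.mul continuous_fst)).mul continuous_snd).add
    ((continuous_const.mul continuous_fst).mul (c1_cont.comp (by fun_prop)))

theorem c1_mem (s : ℝ) : c1 s ∈ Icc (0 : ℝ) 1 := by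
  unfold c1
  exact ⟨le_max_left _ _, max_le zero_le_one (min_le_right _ _)⟩

theorem sS_mem (l σ : ℝ) : sS l σ ∈ Icc (0 : ℝ) 1 := c1_mem _

variable {D : (ℝ → X) → ℝ → ℝ → X}

theorem K0_cont (hL : 0 < L) (hD : DSym X (2 * L) D) {Z : Type} [TopologicalSpace Z]
    {α β : Z → ℝ → X} {x y : Z → X} (hα : Continuous α) (hβ : Continuous β)
    (hα1 : ∀ z, Trk (α z) (x z) (y z) L) (hβ1 : ∀ z, Trk (β z) (x z) (y z) L)
    {μ σ : Z → ℝ} (hμ : Continuous μ) (hσ : Continuous σ) :
    Continuous fun z => K0 D L (α z) (β z) (μ z) (σ z) := by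
  unfold K0
  have h1 : Continuous fun z => ((cc L (α z) (β z), sS (μ z) (σ z), L * tS (μ z) (σ z)) :
      (ℝ → X) × ℝ × ℝ) :=
    (cc_cont hα hβ).prodMk ((sS_cont.comp (hμ.prodMk hσ)).prodMk
      (continuous_const.mul (tS_cont.comp (hμ.prodMk hσ))))
  exact hD.cont.comp_continuous h1 (fun z => ⟨cc_Per hL (hα1 z) (hβ1 z), sS_mem _ _⟩)

theorem K0_zero (hL : 0 < L) (hD : DSym X (2 * L) D) (hα : Trk α x y L) (hβ : Trk β x y L)
    {σ : ℝ} (hσ : σ ∈ Icc (0 : ℝ) 1) : K0 D L α β 0 σ = α (L * σ) := by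
  unfold K0
  rw [sS_zero, tS_zero, hD.zero _ (cc_Per hL hα hβ)]
  exact cc_low hL hα hβ (mul_nonneg hL.le hσ.1) (by nlinarith [hσ.2])

theorem K0_left (hL : 0 < L) (hD : DSym X (2 * L) D) (hα : Trk α x y L) (hβ : Trk β x y L)
    (μ : ℝ) : K0 D L α β μ 0 = x := by
  unfold K0
  rw [sS_left, tS_left, mul_zero, hD.zero _ (cc_Per hL hα hβ), cc_low hL hα hβ le_rfl hL.le]
  exact hα.2.1 0 le_rfl

theorem K0_right (hL : 0 < L) (hD : DSym X (2 * L) D) (hα : Trk α x y L) (hβ : Trk β x y L)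
    (μ : ℝ) : K0 D L α β μ 1 = y := by
  unfold K0
  rw [sS_right, tS_right, mul_one, hD.zero _ (cc_Per hL hα hβ), cc_low hL hα hβ hL.le le_rfl]
  exact hα.2.2 L le_rfl

theorem K0_half (hL : 0 < L) (hD : DSym X (2 * L) D) (hα : Trk α x y L) (hβ : Trk β x y L)
    (σ : ℝ) : K0 D L α β (1 / 2) σ = K0 D L β α (1 / 2) σ := by
  unfold K0
  have hP := cc_Per hL hα hβ
  rw [cc_rev hL hα hβ, hD.rev _ hP _ (sS_mem _ _)]
  rcases half_cases σ with h | h | h
  · rw [h, mul_zero, neg_zero]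
  · rw [h, hD.one _ hP, hD.one _ hP (-(L * _))]
  · rw [h, mul_one]
    have := hD.per _ hP _ (sS_mem (1 / 2) σ) (-L)
    rw [← this]
    congr 1
    ring

/-- the symmetric function -/
def vv (D : (ℝ → X) → ℝ → ℝ → X) (L r : ℝ) (α β : ℝ → X) : ℝ :=
  min 1 (sSup ((fun p : ℝ × ℝ => dist (K0 D L α β p.1 p.2) (K0 D L β α p.1 p.2)) ''
    (Icc (0 : ℝ) (1 / 2) ×ˢ Icc (0 : ℝ) 1)) / r)

theorem vv_symm (r : ℝ) : vv D L r β α = vv D L r α β := by
  unfold vv
  congr 4
  funext p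
  exact dist_comm _ _

theorem vv_nonneg {r : ℝ} (hr : 0 < r) : 0 ≤ vv D L r α β := by
  unfold vv
  refine le_min zero_le_one (div_nonneg (Real.sSup_nonneg ?_) hr.le)
  rintro _ ⟨p, _, rfl⟩
  exact dist_nonneg

theorem vv_le {r : ℝ} : vv D L r α β ≤ 1 := min_le_left _ _

theorem vv_diag (r : ℝ) : vv D L r α α = 0 := by
  unfold vv
  have h : (fun p : ℝ × ℝ => dist (K0 D L α α p.1 p.2) (K0 D L α α p.1 p.2)) ''
      (Icc (0 : ℝ) (1 / 2) ×ˢ Icc (0 : ℝ) 1) = {0} := by
    apply Set.Subset.antisymm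
    · rintro _ ⟨p, _, rfl⟩
      simp
    · rintro _ rfl
      exact ⟨(0, 0), ⟨⟨le_rfl, by norm_num⟩, ⟨le_rfl, zero_le_one⟩⟩, by simp⟩
  rw [h, csSup_singleton, zero_div]
  exact min_eq_right zero_le_one

theorem vv_dist [CompactSpace X] {r : ℝ} (hr : 0 < r) (hL : 0 < L) (hD : DSym X (2 * L) D)
    (hα : Trk α x y L) (hβ : Trk β x y L) {σ : ℝ} (hσ : σ ∈ Icc (0 : ℝ) 1) :
    dist (K0 D L α β (vv D L r α β / 2) σ) (K0 D L β α (vv D L r α β / 2) σ) ≤ r := by
  have h0 := vv_nonneg (D := D) (L := L) (α := α) (β := β) hr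
  have h1 := vv_le (D := D) (L := L) (α := α) (β := β) (r := r)
  rcases h1.lt_or_eq with h | h
  · have h2 : sSup ((fun p : ℝ × ℝ => dist (K0 D L α β p.1 p.2) (K0 D L β α p.1 p.2)) ''
        (Icc (0 : ℝ) (1 / 2) ×ˢ Icc (0 : ℝ) 1)) / r < 1 := by
      by_contra hcon
      push Not at hcon
      have : vv D L r α β = 1 := min_eq_left hcon
      linarith
    rw [div_lt_one hr] at h2
    refine le_trans (le_csSup ?_ ?_) h2.le
    · refine ⟨Metric.diam (univ : Set X), ?_⟩
      rintro _ ⟨p, _, rfl⟩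
      exact Metric.dist_le_diam_of_mem isCompact_univ.isBounded (mem_univ _) (mem_univ _)
    · exact ⟨(vv D L r α β / 2, σ), ⟨⟨by linarith, by linarith⟩, hσ⟩, rfl⟩
  · rw [h, K0_half hL hD hα hβ, dist_self]
    exact hr.le

theorem vv_cont {r : ℝ} (hL : 0 < L) (hD : DSym X (2 * L) D) {Z : Type}
    [TopologicalSpace Z] {α β : Z → ℝ → X} {x y : Z → X} (hα : Continuous α) (hβ : Continuous β)
    (hα1 : ∀ z, Trk (α z) (x z) (y z) L) (hβ1 : ∀ z, Trk (β z) (x z) (y z) L) :
    Continuous fun z => vv D L r (α z) (β z) := by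
  unfold vv
  refine continuous_const.min (Continuous.div_const ?_ _)
  refine IsCompact.continuous_sSup (f := fun (z : Z) (p : ℝ × ℝ) =>
    dist (K0 D L (α z) (β z) p.1 p.2) (K0 D L (β z) (α z) p.1 p.2))
    (isCompact_Icc.prod isCompact_Icc) ?_
  have e1 : Continuous fun q : Z × ℝ × ℝ => q.2.1 := continuous_fst.comp continuous_snd
  have e2 : Continuous fun q : Z × ℝ × ℝ => q.2.2 := continuous_snd.comp continuous_snd
  exact (K0_cont hL hD (hα.comp continuous_fst) (hβ.comp continuous_fst) (fun q => hα1 q.1)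
    (fun q => hβ1 q.1) e1 e2).dist (K0_cont hL hD (hβ.comp continuous_fst)
    (hα.comp continuous_fst) (fun q => hβ1 q.1) (fun q => hα1 q.1) e1 e2)

/-- the symmetric family of paths -/
def KK (D : (ℝ → X) → ℝ → ℝ → X) (L r : ℝ) (m : X → X → ℝ → X) (α β : ℝ → X) (l σ : ℝ) : X :=
  if l ≤ 1 / 3 then K0 D L α β (3 * l * (vv D L r α β / 2)) σ
  else if l ≤ 2 / 3 then m (K0 D L α β (vv D L r α β / 2) σ) (K0 D L β α (vv D L r α β / 2) σ)
    (c1 (3 * l - 1))
  else K0 D L β α ((3 - 3 * l) * (vv D L r α β / 2)) σ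

/-- PART B -/
theorem s_KSYM : S_KSYM := by
  intro X _ _ r m hr hm hms L hL D hD W _ _ f g _ _ S _ hS
  refine ⟨fun _ α β l σ => KK D L r m α β l σ, ?_, ?_, ?_, ?_, ?_, ?_⟩
  · -- continuity
    rw [continuousOn_iff_continuous_domRestrict]
    set T : Set (W × (ℝ → X) × (ℝ → X) × ℝ × ℝ) :=
      {q | (q.1, q.2.1) ∈ S ∧ (q.1, q.2.2.1) ∈ S ∧ q.2.2.2.1 ∈ Icc (0 : ℝ) 1 ∧
        q.2.2.2.2 ∈ Icc (0 : ℝ) 1} with hT
    have cα : Continuous fun z : T => z.1.2.1 := by fun_prop
    have cβ : Continuous fun z : T => z.1.2.2.1 := by fun_prop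
    have cl : Continuous fun z : T => z.1.2.2.2.1 := by fun_prop
    have cσ : Continuous fun z : T => z.1.2.2.2.2 := by fun_prop
    have hα1 : ∀ z : T, Trk z.1.2.1 (f z.1.1) (g z.1.1) L := fun z => hS _ z.2.1
    have hβ1 : ∀ z : T, Trk z.1.2.2.1 (f z.1.1) (g z.1.1) L := fun z => hS _ z.2.2.1
    have cv : Continuous fun z : T => vv D L r z.1.2.1 z.1.2.2.1 := vv_cont hL hD cα cβ hα1 hβ1
    have b1 : Continuous fun z : T => K0 D L z.1.2.1 z.1.2.2.1
        (3 * z.1.2.2.2.1 * (vv D L r z.1.2.1 z.1.2.2.1 / 2)) z.1.2.2.2.2 :=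
      K0_cont hL hD cα cβ hα1 hβ1 ((continuous_const.mul cl).mul (cv.div_const 2)) cσ
    have b3 : Continuous fun z : T => K0 D L z.1.2.2.1 z.1.2.1
        ((3 - 3 * z.1.2.2.2.1) * (vv D L r z.1.2.1 z.1.2.2.1 / 2)) z.1.2.2.2.2 :=
      K0_cont hL hD cβ cα hβ1 hα1
        ((continuous_const.sub (continuous_const.mul cl)).mul (cv.div_const 2)) cσ
    have bx : Continuous fun z : T => K0 D L z.1.2.1 z.1.2.2.1
        (vv D L r z.1.2.1 z.1.2.2.1 / 2) z.1.2.2.2.2 :=
      K0_cont hL hD cα cβ hα1 hβ1 (cv.div_const 2) cσ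
    have by' : Continuous fun z : T => K0 D L z.1.2.2.1 z.1.2.1
        (vv D L r z.1.2.1 z.1.2.2.1 / 2) z.1.2.2.2.2 :=
      K0_cont hL hD cβ cα hβ1 hα1 (cv.div_const 2) cσ
    have hd : ∀ z : T, dist (K0 D L z.1.2.1 z.1.2.2.1 (vv D L r z.1.2.1 z.1.2.2.1 / 2) z.1.2.2.2.2)
        (K0 D L z.1.2.2.1 z.1.2.1 (vv D L r z.1.2.1 z.1.2.2.1 / 2) z.1.2.2.2.2) ≤ r :=
      fun z => vv_dist hr hL hD (hα1 z) (hβ1 z) z.2.2.2.2
    have b2 : Continuous fun z : T => m
        (K0 D L z.1.2.1 z.1.2.2.1 (vv D L r z.1.2.1 z.1.2.2.1 / 2) z.1.2.2.2.2)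
        (K0 D L z.1.2.2.1 z.1.2.1 (vv D L r z.1.2.1 z.1.2.2.1 / 2) z.1.2.2.2.2)
        (c1 (3 * z.1.2.2.2.1 - 1)) :=
      hm.cont.comp_continuous (bx.prodMk (by'.prodMk
        (c1_cont.comp ((continuous_const.mul cl).sub continuous_const))))
        (fun z => ⟨hd z, c1_mem _⟩)
    have b23 : Continuous fun z : T => if z.1.2.2.2.1 ≤ 2 / 3 then m
        (K0 D L z.1.2.1 z.1.2.2.1 (vv D L r z.1.2.1 z.1.2.2.1 / 2) z.1.2.2.2.2)
        (K0 D L z.1.2.2.1 z.1.2.1 (vv D L r z.1.2.1 z.1.2.2.1 / 2) z.1.2.2.2.2)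
        (c1 (3 * z.1.2.2.2.1 - 1)) else K0 D L z.1.2.2.1 z.1.2.1
        ((3 - 3 * z.1.2.2.2.1) * (vv D L r z.1.2.1 z.1.2.2.1 / 2)) z.1.2.2.2.2 := by
      refine Continuous.if_le b2 b3 cl continuous_const (fun z hz => ?_)
      have e1 : c1 (3 * z.1.2.2.2.1 - 1) = 1 := by
        rw [hz]
        exact c1_high (by norm_num)
      have e2 : (3 - 3 * z.1.2.2.2.1) * (vv D L r z.1.2.1 z.1.2.2.1 / 2) =
          vv D L r z.1.2.1 z.1.2.2.1 / 2 := by
        rw [hz]
        ring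
      rw [e1, e2, hm.one _ _ (hd z)]
    refine Continuous.if_le b1 b23 cl continuous_const (fun z hz => ?_)
    have e1 : c1 (3 * z.1.2.2.2.1 - 1) = 0 := by
      rw [hz]
      exact c1_low (by norm_num)
    have e2 : 3 * z.1.2.2.2.1 * (vv D L r z.1.2.1 z.1.2.2.1 / 2) =
        vv D L r z.1.2.1 z.1.2.2.1 / 2 := by
      rw [hz]
      ring
    rw [if_pos (by rw [hz]; norm_num), e1, e2, hm.zero _ _ (hd z)]
  · -- left end
    intro w α β hα hβ l _
    have h1 := hS _ hα
    have h2 := hS _ hβ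
    dsimp only at h1 h2
    show KK D L r m α β l 0 = f w
    unfold KK
    split_ifs
    · exact K0_left hL hD h1 h2 _
    · rw [K0_left hL hD h1 h2, K0_left hL hD h2 h1]
      have h3 : dist (f w) (f w) ≤ r := by rw [dist_self]; exact hr.le
      have h4 := hm.dist_eq _ _ h3 _ (c1_mem (3 * l - 1)) 0 ⟨le_rfl, zero_le_one⟩
      rw [dist_self, mul_zero, hm.zero _ _ h3] at h4
      exact dist_eq_zero.1 h4
    · exact K0_left hL hD h2 h1 _
  · -- right end
    intro w α β hα hβ l _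
    have h1 := hS _ hα
    have h2 := hS _ hβ
    dsimp only at h1 h2
    show KK D L r m α β l 1 = g w
    unfold KK
    split_ifs
    · exact K0_right hL hD h1 h2 _
    · rw [K0_right hL hD h1 h2, K0_right hL hD h2 h1]
      have h3 : dist (g w) (g w) ≤ r := by rw [dist_self]; exact hr.le
      have h4 := hm.dist_eq _ _ h3 _ (c1_mem (3 * l - 1)) 0 ⟨le_rfl, zero_le_one⟩
      rw [dist_self, mul_zero, hm.zero _ _ h3] at h4
      exact dist_eq_zero.1 h4
    · exact K0_right hL hD h2 h1 _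
  · -- `l = 0`
    intro w α β hα hβ σ hσ
    have h1 := hS _ hα
    have h2 := hS _ hβ
    dsimp only at h1 h2
    show KK D L r m α β 0 σ = α (L * σ)
    unfold KK
    rw [if_pos (by norm_num), mul_zero, zero_mul]
    exact K0_zero hL hD h1 h2 hσ
  · -- symmetry
    intro w α β hα hβ l hl σ hσ
    have h1 := hS _ hα
    have h2 := hS _ hβ
    dsimp only at h1 h2
    show KK D L r m α β l σ = KK D L r m β α (1 - l) σ
    have hd := vv_dist hr hL hD h1 h2 hσ
    unfold KK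
    rw [vv_symm r (α := α) (β := β)]
    set v := vv D L r α β with hv
    rcases lt_trichotomy l (1 / 3) with ha | ha | ha
    · rw [if_pos ha.le, if_neg (by linarith), if_neg (by linarith)]
      congr 1
      ring
    · rw [if_pos ha.le, if_neg (by linarith), if_pos (by linarith)]
      have e1 : c1 (3 * (1 - l) - 1) = 1 := by
        rw [ha]
        exact c1_high (by norm_num)
      have e2 : 3 * l * (v / 2) = v / 2 := by
        rw [ha]
        ring
      rw [e1, e2, hm.one _ _ (by rw [dist_comm]; exact hd)]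
    · rw [if_neg (by linarith)]
      rcases lt_trichotomy l (2 / 3) with hb | hb | hb
      · rw [if_pos hb.le, if_neg (by linarith), if_pos (by linarith),
          hms _ _ hd _ (c1_mem _), c1_of ⟨by linarith, by linarith⟩,
          c1_of ⟨by linarith, by linarith⟩]
        congr 1
        ring
      · rw [if_pos hb.le, if_pos (by linarith)]
        have e1 : c1 (3 * l - 1) = 1 := by
          rw [hb]
          exact c1_high (by norm_num)
        have e2 : 3 * (1 - l) * (v / 2) = v / 2 := by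
          rw [hb]
          ring
        rw [e1, e2, hm.one _ _ hd]
      · rw [if_neg (by linarith), if_pos (by linarith)]
        congr 1
        ring
  · -- the diagonal
    intro w α hα l _ σ hσ
    have h1 := hS _ hα
    dsimp only at h1
    show KK D L r m α α l σ = α (L * σ)
    unfold KK
    rw [vv_diag, zero_div, mul_zero, mul_zero]
    have e0 := K0_zero hL hD h1 h1 hσ
    split_ifs
    · exact e0
    · rw [e0]
      have h3 : dist (α (L * σ)) (α (L * σ)) ≤ r := by rw [dist_self]; exact hr.le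
      have h4 := hm.dist_eq _ _ h3 _ (c1_mem (3 * l - 1)) 0 ⟨le_rfl, zero_le_one⟩
      rw [dist_self, mul_zero, hm.zero _ _ h3] at h4
      exact dist_eq_zero.1 h4
    · exact e0

end Pool.Agent.L7h73.TM
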